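import Pool.Agent.W761.CB.Stms

/-!
CB-TRUNC (helper376 for helper761): approximation of wave functions by bounded ones.
-/

set_option autoImplicit false

open MeasureTheory Filter Topology
open scoped ENNReal

namespace Pool.Agent.W376.CB

open Pool.Agent.W761.CB

/-! ### truncation -/

/-- truncation of real numbers -/
noncomputable def cl (M x : ℝ) : ℝ := max (-M) (min M x)

lemma cl_lip (M x y : ℝ) : |cl M x - cl M y| ≤ |x - y| := by
  unfold cl
  refine (abs_max_sub_max_le_max _ _ _ _).trans ?_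
  rw [sub_self, abs_zero, max_eq_right (abs_nonneg _)]
  refine (abs_min_sub_min_le_max _ _ _ _).trans ?_
  rw [sub_self, abs_zero, max_eq_right (abs_nonneg _)]

lemma cl_eq {M x : ℝ} (h : |x| ≤ M) : cl M x = x := by
  have := abs_le.1 h
  unfold cl
  rw [min_eq_right this.2, max_eq_right this.1]

lemma cl_abs {M : ℝ} (hM : 0 ≤ M) (x : ℝ) : |cl M x| ≤ M := by
  unfold cl
  rw [abs_le]
  exact ⟨le_max_left _ _, max_le (by linarith) (min_le_left _ _)⟩

/-- truncation of complex numbers -/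
noncomputable def tr (M : ℝ) (z : ℂ) : ℂ := (cl M z.re : ℂ) + (cl M z.im : ℂ) * Complex.I

lemma tr_re (M : ℝ) (z : ℂ) : (tr M z).re = cl M z.re := by simp [tr]

lemma tr_im (M : ℝ) (z : ℂ) : (tr M z).im = cl M z.im := by simp [tr]

lemma norm_le_of {a b : ℂ} (h1 : |a.re| ≤ |b.re|) (h2 : |a.im| ≤ |b.im|) : ‖a‖ ≤ ‖b‖ := by
  rw [Complex.norm_def, Complex.norm_def]
  apply Real.sqrt_le_sqrt
  rw [Complex.normSq_apply, Complex.normSq_apply]
  have h3 := mul_self_le_mul_self (abs_nonneg _) h1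
  have h4 := mul_self_le_mul_self (abs_nonneg _) h2
  rw [abs_mul_abs_self, abs_mul_abs_self] at h3 h4
  linarith

lemma tr_lip (M : ℝ) (z w : ℂ) : ‖tr M z - tr M w‖ ≤ ‖z - w‖ := by
  apply norm_le_of
  · rw [Complex.sub_re, Complex.sub_re, tr_re, tr_re]
    exact cl_lip _ _ _
  · rw [Complex.sub_im, Complex.sub_im, tr_im, tr_im]
    exact cl_lip _ _ _

lemma tr_norm {M : ℝ} (hM : 0 ≤ M) (z : ℂ) : ‖tr M z‖ ≤ ‖z‖ := by
  have h := tr_lip M z 0
  have h0 : tr M 0 = 0 := by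
    apply Complex.ext
    · rw [tr_re, Complex.zero_re, cl_eq (by simpa using hM)]
    · rw [tr_im, Complex.zero_im, cl_eq (by simpa using hM)]
  rwa [h0, sub_zero, sub_zero] at h

lemma tr_bdd {M : ℝ} (hM : 0 ≤ M) (z : ℂ) : ‖tr M z‖ ≤ 2 * M := by
  refine (Complex.norm_le_abs_re_add_abs_im _).trans ?_
  rw [tr_re, tr_im]
  linarith [cl_abs hM z.re, cl_abs hM z.im]

lemma tr_eq {M : ℝ} {z : ℂ} (h : ‖z‖ ≤ M) : tr M z = z := by
  apply Complex.ext
  · rw [tr_re, cl_eq ((Complex.abs_re_le_norm z).trans h)]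
  · rw [tr_im, cl_eq ((Complex.abs_im_le_norm z).trans h)]

lemma tr_meas (M : ℝ) : Measurable (tr M) := by
  unfold tr cl
  fun_prop

lemma tr_tendsto (z : ℂ) : Tendsto (fun m : ℕ => tr m z) atTop (𝓝 z) := by
  apply tendsto_const_nhds.congr'
  filter_upwards [tendsto_natCast_atTop_atTop.eventually_ge_atTop ‖z‖] with m hm
  exact (tr_eq hm).symm

section

variable {n : ℕ} {L : ℝ} [Fact (0 < L)] {N : ℕ}

/-! ### energy -/

lemma enN_le (μ : ℝ≥0∞) (K : (Fin n → ℝ) → ℝ≥0∞) (v : ℝ → ℝ≥0∞) {C : ℝ≥0∞} (hC : C ≠ ⊤)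
    {Φ' Φ : (Fin N → Tor n L) → ℂ} (h1 : ∀ x y, ‖Φ' x - Φ' y‖ₑ ^ 2 ≤ C * ‖Φ x - Φ y‖ₑ ^ 2)
    (h2 : ∀ x, ‖Φ' x‖ₑ ^ 2 ≤ C * ‖Φ x‖ₑ ^ 2) : enN μ K v Φ' ≤ C * enN μ K v Φ := by
  have hI : ∀ s : (Fin N → Tor n L) → (Fin N → Tor n L),
      ∫⁻ x, ‖Φ' (s x) - Φ' x‖ₑ ^ 2 ≤ C * ∫⁻ x, ‖Φ (s x) - Φ x‖ₑ ^ 2 := by
    intro s
    rw [← lintegral_const_mul' _ _ hC]
    exact lintegral_mono fun x => h1 _ _
  unfold enN
  rw [mul_add, mul_add]
  refine add_le_add (add_le_add ?_ ?_) ?_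
  · rw [mul_left_comm C μ]
    gcongr
    rw [Finset.mul_sum]
    refine Finset.sum_le_sum fun i _ => ?_
    rw [Finset.mul_sum]
    refine Finset.sum_le_sum fun c _ => ?_
    refine iSup_le fun k => ?_
    calc 4 ^ k * ∫⁻ x, ‖Φ' (Function.update x i (x i + ec L c ((2 : ℝ)⁻¹ ^ k))) - Φ' x‖ₑ ^ 2
        ≤ 4 ^ k * (C * ∫⁻ x, ‖Φ (Function.update x i (x i + ec L c ((2 : ℝ)⁻¹ ^ k))) -
          Φ x‖ₑ ^ 2) := by
          gcongr
          exact hI _
      _ = C * (4 ^ k * ∫⁻ x, ‖Φ (Function.update x i (x i + ec L c ((2 : ℝ)⁻¹ ^ k))) -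
          Φ x‖ₑ ^ 2) := by rw [mul_left_comm]
      _ ≤ _ := by
          gcongr
          exact le_iSup (fun k : ℕ => 4 ^ k * ∫⁻ x, ‖Φ (Function.update x i
            (x i + ec L c ((2 : ℝ)⁻¹ ^ k))) - Φ x‖ₑ ^ 2) k
  · rw [mul_left_comm C 2⁻¹]
    gcongr
    rw [Finset.mul_sum]
    refine Finset.sum_le_sum fun i _ => ?_
    rw [← lintegral_const_mul' _ _ hC]
    refine lintegral_mono fun z => ?_
    calc K z * ∫⁻ x, ‖Φ' (Function.update x i (x i + pr L z)) - Φ' x‖ₑ ^ 2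
        ≤ K z * (C * ∫⁻ x, ‖Φ (Function.update x i (x i + pr L z)) - Φ x‖ₑ ^ 2) := by
          gcongr
          exact hI _
      _ = _ := by rw [mul_left_comm]
  · rw [← lintegral_const_mul' _ _ hC]
    refine lintegral_mono fun x => ?_
    calc (∑ i : Fin N, ∑ j ∈ Finset.univ.filter fun j => i < j, v (tdist (x i) (x j))) *
          ‖Φ' x‖ₑ ^ 2
        ≤ (∑ i : Fin N, ∑ j ∈ Finset.univ.filter fun j => i < j, v (tdist (x i) (x j))) *
          (C * ‖Φ x‖ₑ ^ 2) := by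
          gcongr
          exact h2 x
      _ = _ := by rw [mul_left_comm]

/-! ### the condensate -/

/-- integration over one more variable -/
lemma lint_update (f : (Fin N → Tor n L) → ℝ≥0∞) (hf : Measurable f) (i : Fin N) :
    ∫⁻ x, ∫⁻ y, f (Function.update x i y) = volume (Set.univ : Set (Tor n L)) * ∫⁻ x, f x := by
  have hg : Measurable fun x : Fin N → Tor n L => ∫⁻ y, f (Function.update x i y) := by
    apply Measurable.lintegral_prod_right'
      (f := fun p : (Fin N → Tor n L) × Tor n L => f (Function.update p.1 i p.2))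
    exact hf.comp (by fun_prop)
  have x0 : Fin N → Tor n L := fun _ => 0
  rw [volume_pi, lintegral_eq_lmarginal_univ x0, lintegral_eq_lmarginal_univ x0,
    lmarginal_erase' _ hg (Finset.mem_univ i), lmarginal_erase' _ hf (Finset.mem_univ i)]
  simp only [Function.update_idem, lintegral_const]
  have hc : volume (Set.univ : Set (Tor n L)) ≠ ⊤ := measure_ne_top _ _
  rw [mul_comm]
  exact lintegral_mul_const' _ _ hc

/-- the integrand -/
noncomputable def Gf (Φ : (Fin N → Tor n L) → ℂ) (i : Fin N) (p : (Fin N → Tor n L) × Tor n L) : ℝ :=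
  ((starRingEnd ℂ) (Φ p.1) * Φ (Function.update p.1 i p.2)).re

lemma Gf_meas {Φ : (Fin N → Tor n L) → ℂ} (hΦ : Measurable Φ) (i : Fin N) :
    Measurable (Gf Φ i) := by
  have h1 : Measurable fun p : (Fin N → Tor n L) × Tor n L => Φ (Function.update p.1 i p.2) :=
    hΦ.comp (by fun_prop)
  have h2 : Measurable fun p : (Fin N → Tor n L) × Tor n L => Φ p.1 := hΦ.comp measurable_fst
  exact Complex.measurable_re.comp ((RCLike.continuous_conj.measurable.comp h2).mul h1)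

lemma Gf_abs (Φ : (Fin N → Tor n L) → ℂ) (i : Fin N) (p : (Fin N → Tor n L) × Tor n L) :
    |Gf Φ i p| ≤ ‖Φ p.1‖ * ‖Φ (Function.update p.1 i p.2)‖ := by
  unfold Gf
  refine (Complex.abs_re_le_norm _).trans ?_
  rw [norm_mul, RCLike.norm_conj]

lemma enorm_le_of {a b : ℂ} (h : ‖a‖ ≤ ‖b‖) : ‖a‖ₑ ≤ ‖b‖ₑ := by
  rw [← ofReal_norm, ← ofReal_norm]
  exact ENNReal.ofReal_le_ofReal h

lemma enorm_sq (z : ℂ) : ‖(‖z‖ ^ 2 : ℝ)‖ₑ = ‖z‖ₑ ^ 2 := by
  rw [enorm_pow, enorm_norm]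

lemma int_dom {Φ : (Fin N → Tor n L) → ℂ} (hΦ : Measurable Φ) (h1 : ∫⁻ x, ‖Φ x‖ₑ ^ 2 ≠ ⊤)
    (i : Fin N) : Integrable (fun p : (Fin N → Tor n L) × Tor n L =>
      ‖Φ p.1‖ * ‖Φ (Function.update p.1 i p.2)‖)
      ((volume : Measure (Fin N → Tor n L)).prod (volume : Measure (Tor n L))) := by
  have hu : Measurable fun p : (Fin N → Tor n L) × Tor n L => Φ (Function.update p.1 i p.2) :=
    hΦ.comp (by fun_prop)
  have hf : Measurable fun p : (Fin N → Tor n L) × Tor n L => Φ p.1 := hΦ.comp measurable_fst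
  have hvol : volume (Set.univ : Set (Tor n L)) ≠ ⊤ := measure_ne_top _ _
  have hi1 : Integrable (fun p : (Fin N → Tor n L) × Tor n L => ‖Φ p.1‖ ^ 2)
      ((volume : Measure (Fin N → Tor n L)).prod (volume : Measure (Tor n L))) := by
    refine ⟨(hf.norm.pow_const 2).aestronglyMeasurable, ?_⟩
    rw [HasFiniteIntegral]
    simp only [enorm_sq]
    rw [lintegral_prod _ ((hf.enorm.pow_const 2).aemeasurable)]
    simp only [lintegral_const]
    rw [lintegral_mul_const' _ _ hvol]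
    exact ENNReal.mul_lt_top (lt_top_iff_ne_top.2 h1) (lt_top_iff_ne_top.2 hvol)
  have hi2 : Integrable (fun p : (Fin N → Tor n L) × Tor n L =>
      ‖Φ (Function.update p.1 i p.2)‖ ^ 2)
      ((volume : Measure (Fin N → Tor n L)).prod (volume : Measure (Tor n L))) := by
    refine ⟨(hu.norm.pow_const 2).aestronglyMeasurable, ?_⟩
    rw [HasFiniteIntegral]
    simp only [enorm_sq]
    rw [lintegral_prod _ ((hu.enorm.pow_const 2).aemeasurable)]
    simp only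
    rw [lint_update (fun x => ‖Φ x‖ₑ ^ 2) (hΦ.enorm.pow_const 2) i]
    exact ENNReal.mul_lt_top (lt_top_iff_ne_top.2 hvol) (lt_top_iff_ne_top.2 h1)
  refine (hi1.add hi2).mono' (hf.norm.mul hu.norm).aestronglyMeasurable
    (Eventually.of_forall fun p => ?_)
  rw [Real.norm_of_nonneg (by positivity)]
  simp only [Pi.add_apply]
  nlinarith [sq_nonneg (‖Φ p.1‖ - ‖Φ (Function.update p.1 i p.2)‖),
    sq_nonneg (‖Φ p.1‖ + ‖Φ (Function.update p.1 i p.2)‖)]

lemma condN_eq {Φ : (Fin N → Tor n L) → ℂ} (hΦ : Measurable Φ) (h1 : ∫⁻ x, ‖Φ x‖ₑ ^ 2 ≠ ⊤) :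
    condN Φ = (L ^ n)⁻¹ * ∑ i : Fin N, ∫ p, Gf Φ i p
      ∂((volume : Measure (Fin N → Tor n L)).prod (volume : Measure (Tor n L))) := by
  unfold condN
  congr 1
  refine Finset.sum_congr rfl fun i _ => ?_
  rw [integral_prod]
  · rfl
  · exact (int_dom hΦ h1 i).mono' (Gf_meas hΦ i).aestronglyMeasurable
      (Eventually.of_forall fun p => by
        rw [Real.norm_eq_abs]
        exact Gf_abs Φ i p)

lemma condN_smul (Φ : (Fin N → Tor n L) → ℂ) (c : ℝ) :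
    condN (fun x => (c : ℂ) * Φ x) = c ^ 2 * condN Φ := by
  unfold condN
  rw [mul_left_comm]
  congr 1
  rw [Finset.mul_sum]
  refine Finset.sum_congr rfl fun i _ => ?_
  rw [← integral_const_mul]
  congr 1
  funext x
  rw [← integral_const_mul]
  congr 1
  funext y
  have h : (starRingEnd ℂ) ((c : ℂ) * Φ x) * ((c : ℂ) * Φ (Function.update x i y)) =
      ((c ^ 2 : ℝ) : ℂ) * ((starRingEnd ℂ) (Φ x) * Φ (Function.update x i y)) := by
    rw [map_mul, Complex.conj_ofReal]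
    push_cast
    ring
  rw [h, Complex.re_ofReal_mul]

lemma condN_tendsto {Ψ : (Fin N → Tor n L) → ℂ} (hΨ : Measurable Ψ)
    (h1 : ∫⁻ x, ‖Ψ x‖ₑ ^ 2 ≠ ⊤) :
    Tendsto (fun m : ℕ => condN fun x => tr m (Ψ x)) atTop (𝓝 (condN Ψ)) := by
  have hm : ∀ m : ℕ, Measurable fun x => tr m (Ψ x) := fun m => (tr_meas m).comp hΨ
  have hle : ∀ (m : ℕ) x, ‖tr m (Ψ x)‖ ≤ ‖Ψ x‖ := fun m x => tr_norm (Nat.cast_nonneg m) _
  have h2 : ∀ m : ℕ, ∫⁻ x, ‖tr m (Ψ x)‖ₑ ^ 2 ≠ ⊤ := by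
    intro m
    refine ne_top_of_le_ne_top h1 (lintegral_mono fun x => ?_)
    gcongr
    exact enorm_le_of (hle m x)
  rw [condN_eq hΨ h1]
  have h3 : (fun m : ℕ => condN fun x => tr m (Ψ x)) = fun m : ℕ =>
      (L ^ n)⁻¹ * ∑ i : Fin N, ∫ p, Gf (fun x => tr m (Ψ x)) i p
      ∂((volume : Measure (Fin N → Tor n L)).prod (volume : Measure (Tor n L))) := by
    funext m
    exact condN_eq (hm m) (h2 m)
  rw [h3]
  apply Tendsto.const_mul
  apply tendsto_finsetSum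
  intro i _
  apply tendsto_integral_of_dominated_convergence (fun p : (Fin N → Tor n L) × Tor n L =>
      ‖Ψ p.1‖ * ‖Ψ (Function.update p.1 i p.2)‖)
  · exact fun m => (Gf_meas (hm m) i).aestronglyMeasurable
  · exact int_dom hΨ h1 i
  · intro m
    refine Eventually.of_forall fun p => ?_
    rw [Real.norm_eq_abs]
    refine (Gf_abs _ i p).trans ?_
    exact mul_le_mul (hle m _) (hle m _) (norm_nonneg _) (norm_nonneg _)
  · refine Eventually.of_forall fun p => ?_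
    unfold Gf
    apply (Complex.continuous_re.tendsto _).comp
    exact ((RCLike.continuous_conj.tendsto _).comp (tr_tendsto (Ψ p.1))).mul (tr_tendsto _)

end

theorem trunc : S_TRUNC := by
  intro n L _ μ K v N Ψ ε hK hv hε hΨ hE
  have hle : ∀ (m : ℕ) x, ‖tr m (Ψ x)‖ₑ ≤ ‖Ψ x‖ₑ := fun m x =>
    enorm_le_of (tr_norm (Nat.cast_nonneg m) _)
  have h1 : ∫⁻ x, ‖Ψ x‖ₑ ^ 2 ≠ ⊤ := by
    rw [hΨ.norm]
    exact ENNReal.one_ne_top
  -- the norms
  set q : ℕ → ℝ := fun m => (∫⁻ x, ‖tr m (Ψ x)‖ₑ ^ 2).toReal with hq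
  have hp : Tendsto (fun m : ℕ => ∫⁻ x, ‖tr m (Ψ x)‖ₑ ^ 2) atTop (𝓝 1) := by
    rw [← hΨ.norm]
    apply tendsto_lintegral_of_dominated_convergence (fun x => ‖Ψ x‖ₑ ^ 2)
    · exact fun m => ((tr_meas m).comp hΨ.meas).enorm.pow_const 2
    · intro m
      refine Eventually.of_forall fun x => ?_
      have := hle m x
      simp only
      gcongr
    · exact h1
    · refine Eventually.of_forall fun x => ?_
      exact ((ENNReal.continuous_pow 2).tendsto _).comp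
        ((continuous_enorm.tendsto _).comp (tr_tendsto (Ψ x)))
  have hpt : ∀ m : ℕ, ∫⁻ x, ‖tr m (Ψ x)‖ₑ ^ 2 ≠ ⊤ := by
    intro m
    refine ne_top_of_le_ne_top h1 (lintegral_mono fun x => ?_)
    have := hle m x
    gcongr
  have hq1 : Tendsto q atTop (𝓝 1) := by
    have := (ENNReal.tendsto_toReal ENNReal.one_ne_top).comp hp
    rw [ENNReal.toReal_one] at this
    exact this
  have hinv : Tendsto (fun m => (q m)⁻¹) atTop (𝓝 1) := by
    simpa using hq1.inv₀ one_ne_zero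
  have hcond : Tendsto (fun m => (q m)⁻¹ * condN fun x => tr m (Ψ x)) atTop
      (𝓝 (1 * condN Ψ)) := hinv.mul (condN_tendsto hΨ.meas h1)
  have hen : Tendsto (fun m => (q m)⁻¹ * (enN μ K v Ψ).toReal) atTop
      (𝓝 (1 * (enN μ K v Ψ).toReal)) := hinv.mul_const _
  rw [one_mul] at hcond hen
  obtain ⟨m, hm1, hm2, hm3⟩ := ((hcond.eventually_le_const
    (show condN Ψ < condN Ψ + ε by linarith)).and
    ((hen.eventually_le_const (show (enN μ K v Ψ).toReal < (enN μ K v Ψ).toReal + ε by linarith)).and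
      (hq1.eventually_const_lt (show (0 : ℝ) < 1 by norm_num)))).exists
  have hc2 : (√((q m)⁻¹)) ^ 2 = (q m)⁻¹ := Real.sq_sqrt (inv_nonneg.2 hm3.le)
  have hce : ‖((√((q m)⁻¹) : ℝ) : ℂ)‖ₑ ^ 2 = ENNReal.ofReal (q m)⁻¹ := by
    have h0 : ‖((√((q m)⁻¹) : ℝ) : ℂ)‖ₑ = ENNReal.ofReal (√((q m)⁻¹)) := by
      rw [← ofReal_norm, Complex.norm_real, Real.norm_of_nonneg (Real.sqrt_nonneg _)]
    rw [h0, ← ENNReal.ofReal_pow (Real.sqrt_nonneg _), hc2]
  refine ⟨fun x => ((√((q m)⁻¹) : ℝ) : ℂ) * tr m (Ψ x), ⟨?_, ?_, ?_, ?_⟩, ?_, ?_⟩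
  · exact measurable_const.mul ((tr_meas m).comp hΨ.meas)
  · refine ⟨√((q m)⁻¹) * (2 * m), fun x => ?_⟩
    rw [norm_mul, Complex.norm_real, Real.norm_of_nonneg (Real.sqrt_nonneg _)]
    exact mul_le_mul_of_nonneg_left (tr_bdd (Nat.cast_nonneg m) _) (Real.sqrt_nonneg _)
  · intro π x
    rw [hΨ.symm]
  · simp only [enorm_mul, mul_pow, hce]
    rw [lintegral_const_mul' _ _ ENNReal.ofReal_ne_top]
    have : ∫⁻ x, ‖tr m (Ψ x)‖ₑ ^ 2 = ENNReal.ofReal (q m) := (ENNReal.ofReal_toReal (hpt m)).symm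
    rw [this, ← ENNReal.ofReal_mul (inv_nonneg.2 hm3.le), inv_mul_cancel₀ hm3.ne',
      ENNReal.ofReal_one]
  · have h2 := enN_le μ K v (C := ENNReal.ofReal (q m)⁻¹) ENNReal.ofReal_ne_top
      (Φ' := fun x => ((√((q m)⁻¹) : ℝ) : ℂ) * tr m (Ψ x)) (Φ := Ψ) (fun x y => by
        rw [← mul_sub, enorm_mul, mul_pow, hce]
        gcongr
        exact enorm_le_of (tr_lip _ _ _)) (fun x => by
        rw [enorm_mul, mul_pow, hce]
        have := hle m x
        gcongr)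
    refine h2.trans ?_
    rw [← ENNReal.ofReal_toReal hE, ← ENNReal.ofReal_mul (inv_nonneg.2 hm3.le),
      ← ENNReal.ofReal_add ENNReal.toReal_nonneg hε.le]
    exact ENNReal.ofReal_le_ofReal hm2
  · rw [condN_smul, hc2]
    exact hm1

end Pool.Agent.W376.CB
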